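import Mathlib
import Pool.Agent.Helper13.TU.Defs

set_option autoImplicit false

open NumberField Polynomial Module IntermediateField Metric
open scoped TensorProduct

namespace Pool.Agent.Helper13.TU

section
variable {K : Type*} [Field K] [NumberField K]

theorem prod_norm_eq_natAbs (β : 𝓞 K) :
    ∏ σ : K →+* ℂ, ‖σ (β : K)‖ = ((Algebra.norm ℤ β).natAbs : ℝ) := by
  have h1 : (algebraMap ℚ ℂ) (Algebra.norm ℚ (β : K)) =
      ∏ σ : K →ₐ[ℚ] ℂ, σ (β : K) := Algebra.norm_eq_prod_embeddings ℚ ℂ _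
  have h3 : ∏ σ : K →+* ℂ, ‖σ (β : K)‖ = ∏ σ : K →ₐ[ℚ] ℂ, ‖σ (β : K)‖ := by
    refine Fintype.prod_equiv (RingHom.equivRatAlgHom K ℂ) _ _ ?_
    intro σ
    rfl
  rw [h3, ← norm_prod, ← h1, ← Algebra.coe_norm_int]
  rw [Nat.cast_natAbs]
  simp

theorem elem_facts {β : 𝓞 K} (hβ : β ≠ 0) {c : ℝ} (hc : 1 ≤ c) (v : (K →+* ℂ) → ℝ)
    (hsum : ∑ σ, v σ = 0) (h : ∀ σ : K →+* ℂ, ‖σ (β : K)‖ ≤ c * Real.exp (v σ)) :
    1 ≤ (Algebra.norm ℤ β).natAbs ∧ ((Algebra.norm ℤ β).natAbs : ℝ) ≤ c ^ finrank ℚ K ∧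
      ∀ σ : K →+* ℂ, |Real.log ‖σ (β : K)‖ - v σ| ≤ finrank ℚ K * c := by
  classical
  have hcard : Fintype.card (K →+* ℂ) = finrank ℚ K := NumberField.Embeddings.card K ℂ
  have hcard' : (Fintype.card (K →+* ℂ) : ℝ) = finrank ℚ K := by exact_mod_cast hcard
  have hd : (1 : ℝ) ≤ finrank ℚ K := by
    exact_mod_cast (finrank_pos : 0 < finrank ℚ K)
  have hpos : ∀ σ : K →+* ℂ, 0 < ‖σ (β : K)‖ := by
    intro σ
    rw [norm_pos_iff, Ne, map_eq_zero]
    exact_mod_cast hβ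
  have hN1 : 1 ≤ (Algebra.norm ℤ β).natAbs := by
    rw [Nat.one_le_iff_ne_zero, Ne, Int.natAbs_eq_zero, Algebra.norm_eq_zero_iff]
    exact hβ
  have hprod := prod_norm_eq_natAbs β
  refine ⟨hN1, ?_, ?_⟩
  · rw [← hprod]
    calc ∏ σ : K →+* ℂ, ‖σ (β : K)‖ ≤ ∏ σ : K →+* ℂ, (c * Real.exp (v σ)) :=
          Finset.prod_le_prod (fun σ _ => norm_nonneg _) fun σ _ => h σ
      _ = c ^ finrank ℚ K := by
          rw [Finset.prod_mul_distrib, Finset.prod_const, Finset.card_univ, hcard,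
            ← Real.exp_sum, hsum, Real.exp_zero, mul_one]
  · intro σ
    have hlogc : 0 ≤ Real.log c := Real.log_nonneg hc
    have hlogc' : Real.log c ≤ c := by
      have := Real.log_le_sub_one_of_pos (show (0 : ℝ) < c by linarith)
      linarith
    have hup : ∀ τ : K →+* ℂ, Real.log ‖τ (β : K)‖ ≤ Real.log c + v τ := by
      intro τ
      have := Real.log_le_log (hpos τ) (h τ)
      rwa [Real.log_mul (by linarith) (Real.exp_pos _).ne', Real.log_exp] at this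
    have hlogsum : 0 ≤ ∑ τ : K →+* ℂ, Real.log ‖τ (β : K)‖ := by
      rw [← Real.log_prod (fun τ _ => (hpos τ).ne'), hprod]
      exact Real.log_nonneg (by exact_mod_cast hN1)
    have h2 := Finset.add_sum_erase Finset.univ
      (fun τ : K →+* ℂ => Real.log ‖τ (β : K)‖) (Finset.mem_univ σ)
    have h3 := Finset.add_sum_erase Finset.univ v (Finset.mem_univ σ)
    have h1 : ∑ τ ∈ Finset.univ.erase σ, Real.log ‖τ (β : K)‖ ≤
        ∑ τ ∈ Finset.univ.erase σ, (Real.log c + v τ) := Finset.sum_le_sum fun τ _ => hup τ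
    rw [Finset.sum_add_distrib, Finset.sum_const, Finset.card_erase_of_mem (Finset.mem_univ _),
      Finset.card_univ, nsmul_eq_mul] at h1
    have h4 : ((Fintype.card (K →+* ℂ) - 1 : ℕ) : ℝ) ≤ finrank ℚ K := by
      rw [← hcard']
      exact_mod_cast Nat.sub_le _ _
    have h5 : ((Fintype.card (K →+* ℂ) - 1 : ℕ) : ℝ) * Real.log c ≤ finrank ℚ K * c :=
      mul_le_mul h4 hlogc' hlogc (by linarith)
    have h6 : c ≤ finrank ℚ K * c := by nlinarith
    rw [abs_le]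
    constructor
    · linarith
    · linarith [hup σ]

theorem associated_of_congr {β β' : 𝓞 K} (hβ : β ≠ 0) (hβ' : β' ≠ 0)
    (hN : (Algebra.norm ℤ β).natAbs = (Algebra.norm ℤ β').natAbs)
    (hdvd : (((Algebra.norm ℤ β).natAbs : ℕ) : 𝓞 K) ∣ β' - β) :
    ∃ u : (𝓞 K)ˣ, β' = β * (u : 𝓞 K) := by
  have key : ∀ x : 𝓞 K, x ∣ (((Algebra.norm ℤ x).natAbs : ℕ) : 𝓞 K) := by
    intro x
    rw [← Ideal.mem_span_singleton, ← Ideal.absNorm_span_singleton]
    exact Ideal.absNorm_mem _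
  have h1 : β ∣ β' := by
    have := (key β).trans hdvd
    have h2 := dvd_add this (dvd_refl β)
    rwa [sub_add_cancel] at h2
  have h2 : β' ∣ β := by
    have h3 := key β'
    rw [← hN] at h3
    have h4 := h3.trans hdvd
    have h5 := dvd_sub (dvd_refl β') h4
    rwa [sub_sub_cancel] at h5
  obtain ⟨u, hu⟩ := associated_of_dvd_dvd h1 h2
  exact ⟨u, hu.symm⟩

end

end Pool.Agent.Helper13.TU
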