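import Mathlib
import Pool.Agent.Helper13.TU.Defs

set_option autoImplicit false

open NumberField Polynomial Module IntermediateField Metric
open scoped TensorProduct

namespace Pool.Agent.Helper13.TU

section
variable {K : Type*} [Field K] [NumberField K]

theorem prod_norm_unit (x : (𝓞 K)ˣ) : ∏ σ : K →+* ℂ, ‖σ ((x : 𝓞 K) : K)‖ = 1 := by
  have h1 : (algebraMap ℚ ℂ) (Algebra.norm ℚ ((x : 𝓞 K) : K)) =
      ∏ σ : K →ₐ[ℚ] ℂ, σ ((x : 𝓞 K) : K) := Algebra.norm_eq_prod_embeddings ℚ ℂ _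
  have h2 : |Algebra.norm ℚ ((x : 𝓞 K) : K)| = 1 := by
    simp
  have h3 : ∏ σ : K →+* ℂ, ‖σ ((x : 𝓞 K) : K)‖ =
      ∏ σ : K →ₐ[ℚ] ℂ, ‖σ ((x : 𝓞 K) : K)‖ := by
    refine Fintype.prod_equiv (RingHom.equivRatAlgHom K ℂ) _ _ ?_
    intro σ
    rfl
  rw [h3, ← norm_prod, ← h1]
  have : ‖(algebraMap ℚ ℂ) (Algebra.norm ℚ ((x : 𝓞 K) : K))‖ =
      ((|Algebra.norm ℚ ((x : 𝓞 K) : K)| : ℚ) : ℝ) := by
    generalize Algebra.norm ℚ ((x : 𝓞 K) : K) = r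
    simp
  rw [this, h2]
  simp

omit [NumberField K] in
theorem unit_ne_zero' (x : (𝓞 K)ˣ) (σ : K →+* ℂ) : σ ((x : 𝓞 K) : K) ≠ 0 := by
  rw [Ne, map_eq_zero]
  exact_mod_cast x.ne_zero

theorem sum_log_unit (x : (𝓞 K)ˣ) : ∑ σ : K →+* ℂ, Real.log ‖σ ((x : 𝓞 K) : K)‖ = 0 := by
  rw [← Real.log_prod (fun σ _ => norm_ne_zero_iff.2 (unit_ne_zero' x σ)), prod_norm_unit, Real.log_one]

theorem abs_log_le_of_le (x : (𝓞 K)ˣ) (m : ℝ)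
    (h : ∀ σ : K →+* ℂ, Real.log ‖σ ((x : 𝓞 K) : K)‖ ≤ m) (σ : K →+* ℂ) :
    |Real.log ‖σ ((x : 𝓞 K) : K)‖| ≤ finrank ℚ K * m := by
  have hs := sum_log_unit x
  have hcard : (Fintype.card (K →+* ℂ) : ℝ) = finrank ℚ K := by
    exact_mod_cast NumberField.Embeddings.card K ℂ
  have hd : (1 : ℝ) ≤ finrank ℚ K := by
    exact_mod_cast (finrank_pos : 0 < finrank ℚ K)
  have hm : 0 ≤ m := by
    by_contra hm
    push Not at hm
    have : ∑ σ : K →+* ℂ, Real.log ‖σ ((x : 𝓞 K) : K)‖ < 0 := by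
      apply Finset.sum_neg (fun σ _ => lt_of_le_of_lt (h σ) hm)
      exact ⟨σ, Finset.mem_univ _⟩
    linarith
  rw [abs_le]
  constructor
  · classical
    have h1 : ∑ τ ∈ Finset.univ.erase σ, Real.log ‖τ ((x : 𝓞 K) : K)‖ ≤
        ∑ τ ∈ Finset.univ.erase σ, m := Finset.sum_le_sum fun τ _ => h τ
    rw [Finset.sum_const, Finset.card_erase_of_mem (Finset.mem_univ _), Finset.card_univ,
      nsmul_eq_mul] at h1
    have h2 := Finset.add_sum_erase Finset.univ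
      (fun τ : K →+* ℂ => Real.log ‖τ ((x : 𝓞 K) : K)‖) (Finset.mem_univ σ)
    have h3 : ((Fintype.card (K →+* ℂ) - 1 : ℕ) : ℝ) ≤ finrank ℚ K := by
      rw [← hcard]
      exact_mod_cast Nat.sub_le _ _
    have h4 : ((Fintype.card (K →+* ℂ) - 1 : ℕ) : ℝ) * m ≤ finrank ℚ K * m :=
      mul_le_mul_of_nonneg_right h3 hm
    linarith
  · calc Real.log ‖σ ((x : 𝓞 K) : K)‖ ≤ m := h σ
      _ = 1 * m := (one_mul m).symm
      _ ≤ finrank ℚ K * m := mul_le_mul_of_nonneg_right hd hm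

theorem exists_norm_le_one (x : (𝓞 K)ˣ) : ∃ σ : K →+* ℂ, ‖σ ((x : 𝓞 K) : K)‖ ≤ 1 := by
  by_contra hcon
  push Not at hcon
  have : ∑ σ : K →+* ℂ, Real.log ‖σ ((x : 𝓞 K) : K)‖ > 0 := by
    apply Finset.sum_pos (fun σ _ => Real.log_pos (hcon σ))
    exact ⟨(inferInstance : Nonempty (K →+* ℂ)).some, Finset.mem_univ _⟩
  linarith [sum_log_unit x]

omit [NumberField K] in
theorem coe_inv_unit (y : (𝓞 K)ˣ) (σ : K →+* ℂ) :
    σ (((y⁻¹ : (𝓞 K)ˣ) : 𝓞 K) : K) = (σ ((y : 𝓞 K) : K))⁻¹ := by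
  have h : ((y : 𝓞 K) : K) * (((y⁻¹ : (𝓞 K)ˣ) : 𝓞 K) : K) = 1 := by
    have := y.mul_inv
    have h2 := congrArg (fun z : 𝓞 K => (z : K)) this
    exact_mod_cast h2
  have h3 := congrArg σ h
  rw [map_mul, map_one] at h3
  exact eq_inv_of_mul_eq_one_right h3

omit [NumberField K] in
theorem abs_log_inv_unit (y : (𝓞 K)ˣ) (σ : K →+* ℂ) :
    |Real.log ‖σ (((y⁻¹ : (𝓞 K)ˣ) : 𝓞 K) : K)‖| = |Real.log ‖σ ((y : 𝓞 K) : K)‖| := by
  rw [coe_inv_unit, norm_inv, Real.log_inv, abs_neg]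

omit [NumberField K] in
theorem coe_neg_unit (y : (𝓞 K)ˣ) (σ : K →+* ℂ) :
    σ (((-y : (𝓞 K)ˣ) : 𝓞 K) : K) = - σ ((y : 𝓞 K) : K) := by
  simp

omit [NumberField K] in
theorem exists_ringHom_adjoin [CharZero K] (ε : K) (hint : IsIntegral ℚ ε) {L : Type*} [Field L]
    [Algebra ℚ L] (x : L) (hx : aeval x (minpoly ℚ ε) = 0) :
    ∃ f : ℚ⟮ε⟯ →+* L, f (AdjoinSimple.gen ℚ ε) = x := by
  let pb := IntermediateField.adjoin.powerBasis hint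
  have hgen : pb.gen = AdjoinSimple.gen ℚ ε := IntermediateField.adjoin.powerBasis_gen hint
  have hmin : minpoly ℚ pb.gen = minpoly ℚ ε := by
    rw [hgen]
    exact IntermediateField.minpoly_gen ℚ ε
  have h2 : aeval x (minpoly ℚ pb.gen) = 0 := by rw [hmin]; exact hx
  refine ⟨(pb.lift x h2).toRingHom, ?_⟩
  have := pb.lift_gen x h2
  rw [hgen] at this
  exact this

omit [NumberField K] in
theorem ringHom_ext_adjoin [CharZero K] (ε : K) (hint : IsIntegral ℚ ε) {L : Type*} [Field L]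
    [Algebra ℚ L] (f g : ℚ⟮ε⟯ →+* L)
    (h : f (AdjoinSimple.gen ℚ ε) = g (AdjoinSimple.gen ℚ ε)) : f = g := by
  let pb := IntermediateField.adjoin.powerBasis hint
  have hgen : pb.gen = AdjoinSimple.gen ℚ ε := IntermediateField.adjoin.powerBasis_gen hint
  have h1 : f.toRatAlgHom = g.toRatAlgHom := by
    apply pb.algHom_ext
    rw [hgen]
    exact h
  ext z
  exact congrArg (fun k => k z) h1

/-- the last step: a common conjugate, which is real -/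
theorem special_of_conj (ε δ : K) (n : ℕ) (h : ε + δ = (n : K)) (hne : ε ≠ δ)
    (σ τ : K →+* ℂ) (hc : σ ε = τ δ) (r : ℝ) (hr : (r : ℂ) = σ ε) : Special ε δ := by
  have hint : IsIntegral ℚ ε := (Algebra.IsAlgebraic.isAlgebraic (R := ℚ) ε).isIntegral
  -- δ is a root of the minimal polynomial of ε
  have h1 : aeval δ (minpoly ℚ ε) = 0 := by
    have e1 : τ (aeval δ (minpoly ℚ ε)) = aeval (τ δ) (minpoly ℚ ε) :=
      (Polynomial.aeval_algHom_apply τ.toRatAlgHom δ (minpoly ℚ ε)).symm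
    have e2 : σ (aeval ε (minpoly ℚ ε)) = aeval (σ ε) (minpoly ℚ ε) :=
      (Polynomial.aeval_algHom_apply σ.toRatAlgHom ε (minpoly ℚ ε)).symm
    rw [minpoly.aeval, map_zero] at e2
    rw [← hc, ← e2] at e1
    exact (map_eq_zero τ).1 e1
  let δ' : ℚ⟮ε⟯ := (n : ℚ⟮ε⟯) - AdjoinSimple.gen ℚ ε
  have hδ' : ((δ' : ℚ⟮ε⟯) : K) = δ := by
    simp only [δ']
    push_cast
    rw [AdjoinSimple.coe_gen, ← h]
    ring
  have h2 : aeval δ' (minpoly ℚ ε) = 0 := by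
    have : algebraMap ℚ⟮ε⟯ K (aeval δ' (minpoly ℚ ε)) = 0 := by
      rw [← Polynomial.aeval_algebraMap_apply]
      change aeval ((δ' : ℚ⟮ε⟯) : K) (minpoly ℚ ε) = 0
      rw [hδ', h1]
    exact (map_eq_zero _).1 this
  obtain ⟨f, hf⟩ := exists_ringHom_adjoin ε hint δ' h2
  have hff : f.comp f = RingHom.id ℚ⟮ε⟯ := by
    apply ringHom_ext_adjoin ε hint
    rw [RingHom.comp_apply, hf, RingHom.id_apply]
    simp only [δ']
    rw [map_sub, map_natCast, hf]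
    simp [δ']
  have hff' : ∀ z, f (f z) = z := fun z => congrArg (fun g => g z) hff
  let e0 : ℚ⟮ε⟯ ≃+* ℚ⟮ε⟯ := RingEquiv.ofRingHom f f hff hff
  let e : ℚ⟮ε⟯ ≃ₐ[ℚ] ℚ⟮ε⟯ := AlgEquiv.ofRingEquiv (f := e0) (fun q => by
    simp)
  have he' : ∀ z, e z = f z := fun z => rfl
  have he : e (AdjoinSimple.gen ℚ ε) = δ' := hf
  refine ⟨e, ?_, ?_, ?_, ?_⟩
  · intro h1
    rw [h1] at he
    have := congrArg (fun z : ℚ⟮ε⟯ => (z : K)) he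
    simp only [AlgEquiv.one_apply, AdjoinSimple.coe_gen, hδ'] at this
    exact hne this
  · ext1 z
    change e (e z) = z
    rw [he', he', hff']
  · rw [he, hδ']
  · have h3 : aeval r (minpoly ℚ ε) = 0 := by
      have e2 : σ (aeval ε (minpoly ℚ ε)) = aeval (σ ε) (minpoly ℚ ε) :=
        (Polynomial.aeval_algHom_apply σ.toRatAlgHom ε (minpoly ℚ ε)).symm
      rw [minpoly.aeval, map_zero, ← hr] at e2
      have : algebraMap ℝ ℂ (aeval r (minpoly ℚ ε)) = 0 := by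
        rw [← Polynomial.aeval_algebraMap_apply]
        exact e2.symm
      exact (map_eq_zero _).1 this
    obtain ⟨g, -⟩ := exists_ringHom_adjoin ε hint r h3
    exact ⟨g⟩

theorem quot_bound (N : ℝ) (hN : 2 ≤ N) (a b : ℂ) (ha : ‖a‖ ≤ 1) (hb : ‖b‖ ≤ 1) :
    ‖((N : ℂ) - a) * ((N : ℂ) - b)⁻¹ - 1‖ ≤ 4 / N := by
  have h1 : N - 1 ≤ ‖(N : ℂ) - b‖ := by
    calc N - 1 ≤ ‖(N : ℂ)‖ - ‖b‖ := by
          rw [Complex.norm_real, Real.norm_of_nonneg (by linarith)]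
          linarith
      _ ≤ ‖(N : ℂ) - b‖ := norm_sub_norm_le _ _
  have h0 : (N : ℂ) - b ≠ 0 := by
    intro h
    rw [h, norm_zero] at h1
    linarith
  have h2 : ((N : ℂ) - a) * ((N : ℂ) - b)⁻¹ - 1 = (b - a) * ((N : ℂ) - b)⁻¹ := by
    field_simp
    ring
  rw [h2, norm_mul, norm_inv]
  have h3 : ‖b - a‖ ≤ 2 := by
    calc ‖b - a‖ ≤ ‖b‖ + ‖a‖ := norm_sub_le _ _
      _ ≤ 2 := by linarith
  rw [← div_eq_mul_inv, div_le_div_iff₀ (by linarith) (by linarith)]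
  nlinarith

theorem large_core (B₁ : ℝ) (hB₁ : 100 * (finrank ℚ K : ℝ) ≤ B₁)
    (hWB : ∀ (x y : (𝓞 K)ˣ) (σ₁ σ₂ : K →+* ℂ) (B : ℝ), B₁ ≤ B →
      (∀ σ : K →+* ℂ, |Real.log ‖σ ((x : 𝓞 K) : K)‖| ≤ B) →
      (∀ σ : K →+* ℂ, |Real.log ‖σ ((y : 𝓞 K) : K)‖| ≤ B) →
      σ₁ ((x : 𝓞 K) : K) * σ₂ ((y : 𝓞 K) : K) ≠ 1 →
      Real.exp (-(B / (16 * finrank ℚ K))) ≤ ‖σ₁ ((x : 𝓞 K) : K) * σ₂ ((y : 𝓞 K) : K) - 1‖)
    (ε δ : (𝓞 K)ˣ) (n : ℕ) (hn : 1 ≤ n)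
    (h : ((ε : 𝓞 K) : K) + ((δ : 𝓞 K) : K) = (n : K)) (m : ℝ)
    (hm : B₁ < finrank ℚ K * m)
    (hε : ∀ σ : K →+* ℂ, Real.log ‖σ ((ε : 𝓞 K) : K)‖ ≤ m)
    (hδ : ∀ σ : K →+* ℂ, Real.log ‖σ ((δ : 𝓞 K) : K)‖ ≤ m)
    (hex : (∃ σ : K →+* ℂ, Real.log ‖σ ((ε : 𝓞 K) : K)‖ = m) ∨
      ∃ σ : K →+* ℂ, Real.log ‖σ ((δ : 𝓞 K) : K)‖ = m) :
    Special ((ε : 𝓞 K) : K) ((δ : 𝓞 K) : K) := by
  have hd : (1 : ℝ) ≤ finrank ℚ K := by
    exact_mod_cast (finrank_pos : 0 < finrank ℚ K)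
  have hm100 : 100 < m := by
    have : (finrank ℚ K : ℝ) * 100 < finrank ℚ K * m := by linarith
    exact lt_of_mul_lt_mul_left this (by linarith)
  have hσ : ∀ σ : K →+* ℂ, σ ((ε : 𝓞 K) : K) + σ ((δ : 𝓞 K) : K) = ((n : ℝ) : ℂ) := by
    intro σ
    rw [← map_add, h, map_natCast]
    simp
  have hexp : Real.exp (-(finrank ℚ K * m / (16 * finrank ℚ K))) = Real.exp (-(m / 16)) := by
    congr 2
    field_simp
  -- key principle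
  have key : ∀ (x y : (𝓞 K)ˣ) (σ₁ σ₂ : K →+* ℂ),
      (∀ σ : K →+* ℂ, |Real.log ‖σ ((x : 𝓞 K) : K)‖| ≤ finrank ℚ K * m) →
      (∀ σ : K →+* ℂ, |Real.log ‖σ ((y : 𝓞 K) : K)‖| ≤ finrank ℚ K * m) →
      ‖σ₁ ((x : 𝓞 K) : K) * σ₂ ((y : 𝓞 K) : K) - 1‖ < Real.exp (-(m / 16)) →
      σ₁ ((x : 𝓞 K) : K) * σ₂ ((y : 𝓞 K) : K) = 1 := by
    intro x y σ₁ σ₂ hx hy hlt
    by_contra hne
    have := hWB x y σ₁ σ₂ (finrank ℚ K * m) hm.le hx hy hne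
    rw [hexp] at this
    linarith
  have aε := abs_log_le_of_le ε m hε
  have aδ := abs_log_le_of_le δ m hδ
  -- the size of n
  have hnpos : (0 : ℝ) < n := by exact_mod_cast hn
  have hbig : Real.exp (15 * m / 16) ≤ n := by
    have gen : ∀ (x y : (𝓞 K)ˣ) (σ : K →+* ℂ),
        σ ((x : 𝓞 K) : K) + σ ((y : 𝓞 K) : K) = ((n : ℝ) : ℂ) →
        (∀ σ : K →+* ℂ, |Real.log ‖σ ((x : 𝓞 K) : K)‖| ≤ finrank ℚ K * m) →
        (∀ σ : K →+* ℂ, |Real.log ‖σ ((y : 𝓞 K) : K)‖| ≤ finrank ℚ K * m) →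
        Real.log ‖σ ((x : 𝓞 K) : K)‖ = m → Real.exp (15 * m / 16) ≤ n := by
      intro x y σ hs hx hy hxm
      have hx0 := unit_ne_zero' x σ
      have hnx : ‖σ ((x : 𝓞 K) : K)‖ = Real.exp m := by
        rw [← hxm, Real.exp_log (norm_pos_iff.2 hx0)]
      have e1 : σ (((-y : (𝓞 K)ˣ) : 𝓞 K) : K) * σ (((x⁻¹ : (𝓞 K)ˣ) : 𝓞 K) : K) - 1 =
          -((n : ℝ) : ℂ) * (σ ((x : 𝓞 K) : K))⁻¹ := by
        rw [coe_inv_unit, coe_neg_unit, ← hs]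
        field_simp
        ring
      by_contra hlt
      push Not at hlt
      have e2 : ‖σ (((-y : (𝓞 K)ˣ) : 𝓞 K) : K) * σ (((x⁻¹ : (𝓞 K)ˣ) : 𝓞 K) : K) - 1‖ <
          Real.exp (-(m / 16)) := by
        rw [e1, norm_mul, norm_neg, norm_inv, hnx, Complex.norm_real,
          Real.norm_of_nonneg hnpos.le, ← Real.exp_neg]
        calc (n : ℝ) * Real.exp (-m) < Real.exp (15 * m / 16) * Real.exp (-m) :=
              mul_lt_mul_of_pos_right hlt (Real.exp_pos _)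
          _ = Real.exp (-(m / 16)) := by rw [← Real.exp_add]; congr 1; ring
      have e3 := key (-y) x⁻¹ σ σ (fun τ => by rw [coe_neg_unit, norm_neg]; exact hy τ)
        (fun τ => by rw [abs_log_inv_unit]; exact hx τ) e2
      rw [e3, sub_self] at e1
      have : (n : ℝ) = 0 := by
        have h0 : -((n : ℝ) : ℂ) = 0 := by
          rcases mul_eq_zero.1 e1.symm with h | h
          · exact h
          · exact absurd (inv_eq_zero.1 h) hx0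
        exact_mod_cast neg_eq_zero.1 h0
      linarith
    rcases hex with ⟨σ, hs⟩ | ⟨σ, hs⟩
    · exact gen ε δ σ (hσ σ) aε aδ hs
    · exact gen δ ε σ (by rw [add_comm]; exact hσ σ) aδ aε hs
  have hn4 : 4 / (n : ℝ) < Real.exp (-(m / 16)) := by
    rw [div_lt_iff₀ hnpos]
    calc (4 : ℝ) < Real.exp (14 * m / 16) := by
          have := Real.add_one_le_exp (14 * m / 16)
          linarith
      _ = Real.exp (-(m / 16)) * Real.exp (15 * m / 16) := by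
          rw [← Real.exp_add]; congr 1; ring
      _ ≤ Real.exp (-(m / 16)) * n := mul_le_mul_of_nonneg_left hbig (Real.exp_pos _).le
  have hn3 : (3 : ℝ) < n := by
    have := Real.add_one_le_exp (15 * m / 16)
    linarith
  -- claim B
  have hB : ∀ σ τ : K →+* ℂ, ‖σ ((ε : 𝓞 K) : K)‖ ≤ 1 → ‖τ ((δ : 𝓞 K) : K)‖ ≤ 1 →
      σ ((ε : 𝓞 K) : K) = τ ((δ : 𝓞 K) : K) := by
    intro σ τ h1 h2
    have hs := hσ σ
    have ht := hσ τ
    have e1 : σ ((δ : 𝓞 K) : K) = ((n : ℝ) : ℂ) - σ ((ε : 𝓞 K) : K) := by rw [← hs]; ring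
    have e2 : τ ((ε : 𝓞 K) : K) = ((n : ℝ) : ℂ) - τ ((δ : 𝓞 K) : K) := by rw [← ht]; ring
    have e3 := key δ ε⁻¹ σ τ aδ (fun τ => by rw [abs_log_inv_unit]; exact aε τ)
      (by
        rw [coe_inv_unit, e1, e2]
        exact lt_of_le_of_lt (quot_bound n (by linarith) _ _ h1 h2) hn4)
    have e4 : σ ((δ : 𝓞 K) : K) = τ ((ε : 𝓞 K) : K) := by
      rw [coe_inv_unit] at e3
      exact (mul_inv_eq_one₀ (unit_ne_zero' ε τ)).1 e3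
    rw [e1, e2] at e4
    exact sub_right_injective e4
  obtain ⟨σ, hs⟩ := exists_norm_le_one ε
  obtain ⟨τ, ht⟩ := exists_norm_le_one δ
  have hst := hB σ τ hs ht
  have hconj : ComplexEmbedding.conjugate σ ((ε : 𝓞 K) : K) = τ ((δ : 𝓞 K) : K) := by
    apply hB _ _ _ ht
    rw [ComplexEmbedding.conjugate_coe_eq, RCLike.norm_conj]
    exact hs
  have hreal : (starRingEnd ℂ) (σ ((ε : 𝓞 K) : K)) = σ ((ε : 𝓞 K) : K) := by
    rw [← ComplexEmbedding.conjugate_coe_eq, hconj, hst]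
  have hne : ((ε : 𝓞 K) : K) ≠ ((δ : 𝓞 K) : K) := by
    intro heq
    have h1 := hσ σ
    rw [← heq] at h1
    have h2 : ‖((n : ℝ) : ℂ)‖ ≤ 2 := by
      rw [← h1]
      calc ‖σ ((ε : 𝓞 K) : K) + σ ((ε : 𝓞 K) : K)‖ ≤ ‖σ ((ε : 𝓞 K) : K)‖ +
            ‖σ ((ε : 𝓞 K) : K)‖ := norm_add_le _ _
        _ ≤ 2 := by linarith
    rw [Complex.norm_real, Real.norm_of_nonneg hnpos.le] at h2
    linarith
  exact special_of_conj _ _ n h hne σ τ hst (σ ((ε : 𝓞 K) : K)).re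
    (Complex.conj_eq_iff_re.1 hreal)

theorem large_special (B₁ : ℝ) (hB₁ : 100 * (finrank ℚ K : ℝ) ≤ B₁)
    (hWB : ∀ (x y : (𝓞 K)ˣ) (σ₁ σ₂ : K →+* ℂ) (B : ℝ), B₁ ≤ B →
      (∀ σ : K →+* ℂ, |Real.log ‖σ ((x : 𝓞 K) : K)‖| ≤ B) →
      (∀ σ : K →+* ℂ, |Real.log ‖σ ((y : 𝓞 K) : K)‖| ≤ B) →
      σ₁ ((x : 𝓞 K) : K) * σ₂ ((y : 𝓞 K) : K) ≠ 1 →
      Real.exp (-(B / (16 * finrank ℚ K))) ≤ ‖σ₁ ((x : 𝓞 K) : K) * σ₂ ((y : 𝓞 K) : K) - 1‖)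
    (ε δ : (𝓞 K)ˣ) (n : ℕ) (hn : 1 ≤ n)
    (h : ((ε : 𝓞 K) : K) + ((δ : 𝓞 K) : K) = (n : K)) :
    (∀ σ : K →+* ℂ, |Real.log ‖σ ((ε : 𝓞 K) : K)‖| ≤ B₁ ∧
      |Real.log ‖σ ((δ : 𝓞 K) : K)‖| ≤ B₁) ∨ Special ((ε : 𝓞 K) : K) ((δ : 𝓞 K) : K) := by
  by_cases hall : ∀ σ : K →+* ℂ, |Real.log ‖σ ((ε : 𝓞 K) : K)‖| ≤ B₁ ∧
      |Real.log ‖σ ((δ : 𝓞 K) : K)‖| ≤ B₁
  · exact Or.inl hall
  right
  let F : (K →+* ℂ) × Bool → ℝ := fun p =>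
    if p.2 then Real.log ‖p.1 ((ε : 𝓞 K) : K)‖ else Real.log ‖p.1 ((δ : 𝓞 K) : K)‖
  obtain ⟨p0, hp0⟩ := Finite.exists_max F
  have hε : ∀ σ : K →+* ℂ, Real.log ‖σ ((ε : 𝓞 K) : K)‖ ≤ F p0 := fun σ => by
    simpa [F] using hp0 (σ, true)
  have hδ : ∀ σ : K →+* ℂ, Real.log ‖σ ((δ : 𝓞 K) : K)‖ ≤ F p0 := fun σ => by
    simpa [F] using hp0 (σ, false)
  have hm : B₁ < finrank ℚ K * F p0 := by
    by_contra hle
    push Not at hle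
    exact hall fun σ => ⟨(abs_log_le_of_le ε _ hε σ).trans hle,
      (abs_log_le_of_le δ _ hδ σ).trans hle⟩
  refine large_core B₁ hB₁ hWB ε δ n hn h (F p0) hm hε hδ ?_
  rcases hp : p0.2 with _ | _
  · right
    exact ⟨p0.1, by simp [F, hp]⟩
  · left
    exact ⟨p0.1, by simp [F, hp]⟩

end

end Pool.Agent.Helper13.TU
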