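import Mathlib
import Pool.Agent.Helper13.TU.Defs

set_option autoImplicit false

open NumberField Polynomial Module IntermediateField Metric
open scoped TensorProduct

namespace Pool.Agent.Helper13.TU

/-- semantics of coordinate lists -/
noncomputable def valL {A : Type*} [CommRing A] (θ : A) (d : ℕ) (a : List ℤ) : A :=
  ∑ i ∈ Finset.range d, ((a.getD i 0 : ℤ) : A) * θ ^ i

theorem getD_map_range (d : ℕ) (f : ℕ → ℤ) (i : ℕ) (hi : i < d) :
    ((List.range d).map f).getD i 0 = f i := by
  simp [List.getD, List.getElem?_map, List.getElem?_range hi]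

theorem valL_map_range {A : Type*} [CommRing A] (θ : A) (d : ℕ) (f : ℕ → ℤ) :
    valL θ d ((List.range d).map f) = ∑ i ∈ Finset.range d, ((f i : ℤ) : A) * θ ^ i := by
  unfold valL
  refine Finset.sum_congr rfl fun i hi => ?_
  rw [getD_map_range d f i (Finset.mem_range.1 hi)]

theorem valL_addL {A : Type*} [CommRing A] (θ : A) (d : ℕ) (a b : List ℤ) :
    valL θ d (addL d a b) = valL θ d a + valL θ d b := by
  unfold addL
  rw [valL_map_range, valL, valL, ← Finset.sum_add_distrib]
  refine Finset.sum_congr rfl fun i _ => ?_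
  push_cast
  ring

theorem valL_smulL {A : Type*} [CommRing A] (θ : A) (d : ℕ) (t : ℤ) (a : List ℤ) :
    valL θ d (smulL d t a) = (t : A) * valL θ d a := by
  unfold smulL
  rw [valL_map_range, valL, Finset.mul_sum]
  refine Finset.sum_congr rfl fun i _ => ?_
  push_cast
  ring

theorem valL_shiftL {A : Type*} [CommRing A] (θ : A) (c : List ℤ) (hd : 1 ≤ c.length)
    (hθ : θ ^ c.length + ∑ i ∈ Finset.range c.length, ((c.getD i 0 : ℤ) : A) * θ ^ i = 0)
    (a : List ℤ) : valL θ c.length (shiftL c a) = θ * valL θ c.length a := by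
  unfold shiftL
  rw [valL_map_range]
  obtain ⟨m, hm⟩ : ∃ m, c.length = m + 1 := ⟨c.length - 1, by omega⟩
  have h1 : ∀ i, (((if i = 0 then 0 else a.getD (i - 1) 0) - a.getD (c.length - 1) 0 * c.getD i 0 :
      ℤ) : A) * θ ^ i = ((if i = 0 then 0 else a.getD (i - 1) 0 : ℤ) : A) * θ ^ i -
      ((a.getD (c.length - 1) 0 : ℤ) : A) * (((c.getD i 0 : ℤ) : A) * θ ^ i) := by
    intro i
    push_cast
    ring
  rw [Finset.sum_congr rfl fun i _ => h1 i, Finset.sum_sub_distrib, ← Finset.mul_sum]
  have h2 : ∑ i ∈ Finset.range c.length, ((c.getD i 0 : ℤ) : A) * θ ^ i = -θ ^ c.length := by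
    linear_combination hθ
  rw [h2, hm, Finset.sum_range_succ', valL, Finset.sum_range_succ, mul_add, Finset.mul_sum]
  simp only [Nat.add_one_sub_one, if_true, Int.cast_zero, zero_mul, add_zero]
  have h3 : ∑ k ∈ Finset.range m, ((if k + 1 = 0 then (0 : ℤ) else a.getD k 0 : ℤ) : A) *
      θ ^ (k + 1) = ∑ i ∈ Finset.range m, θ * (((a.getD i 0 : ℤ) : A) * θ ^ i) := by
    refine Finset.sum_congr rfl fun i _ => ?_
    rw [if_neg (Nat.succ_ne_zero i)]
    ring
  rw [h3]
  ring

/-- the full value of a list -/
noncomputable def fullL {A : Type*} [CommRing A] (θ : A) (a : List ℤ) : A :=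
  ∑ i ∈ Finset.range a.length, ((a.getD i 0 : ℤ) : A) * θ ^ i

theorem fullL_nil {A : Type*} [CommRing A] (θ : A) : fullL θ [] = 0 := by simp [fullL]

theorem fullL_cons {A : Type*} [CommRing A] (θ : A) (t : ℤ) (a : List ℤ) :
    fullL θ (t :: a) = (t : A) + θ * fullL θ a := by
  unfold fullL
  rw [List.length_cons, Finset.sum_range_succ', Finset.mul_sum]
  simp only [List.getD_cons_succ, List.getD_cons_zero, pow_zero, mul_one]
  rw [add_comm]
  congr 1
  refine Finset.sum_congr rfl fun i _ => ?_
  ring

theorem fullL_eq_valL {A : Type*} [CommRing A] (θ : A) (d : ℕ) (a : List ℤ) (h : a.length ≤ d) :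
    fullL θ a = valL θ d a := by
  unfold fullL valL
  apply Finset.sum_subset (Finset.range_subset_range.2 h)
  intro i _ hi
  rw [Finset.mem_range, not_lt] at hi
  rw [List.getD_eq_default _ _ hi]
  simp

theorem valL_mulL {A : Type*} [CommRing A] (θ : A) (c : List ℤ) (hd : 1 ≤ c.length)
    (hθ : θ ^ c.length + ∑ i ∈ Finset.range c.length, ((c.getD i 0 : ℤ) : A) * θ ^ i = 0)
    (a b : List ℤ) : valL θ c.length (mulL c a b) = fullL θ a * valL θ c.length b := by
  induction a with
  | nil => simp [mulL, fullL_nil, valL]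
  | cons t a ih =>
    have : mulL c (t :: a) b = addL c.length (smulL c.length t b) (shiftL c (mulL c a b)) := rfl
    rw [this, valL_addL, valL_smulL, valL_shiftL θ c hd hθ, ih, fullL_cons]
    ring

theorem mulL_length (c a b : List ℤ) (ha : a ≠ []) : (mulL c a b).length = c.length := by
  cases a with
  | nil => exact absurd rfl ha
  | cons t a => simp [mulL, addL]

theorem mulL_length_le (c a b : List ℤ) : (mulL c a b).length ≤ c.length := by
  cases a with
  | nil => simp [mulL]
  | cons t a => simp [mulL, addL]

/-- the state of the fold in `homL` -/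
def homState (c g D P : List ℤ) : List ℤ × List ℤ :=
  P.foldr (fun t s => (addL c.length (mulL c s.1 g) (smulL c.length t (mulL c s.2 D)),
    mulL c s.2 D)) (([1], [1]) : List ℤ × List ℤ)

theorem homState_cons (c g D P : List ℤ) (t : ℤ) :
    homState c g D (t :: P) =
      (addL c.length (mulL c (homState c g D P).1 g)
        (smulL c.length t (mulL c (homState c g D P).2 D)), mulL c (homState c g D P).2 D) := rfl

theorem homState_spec {A : Type*} [CommRing A] (θ : A) (c : List ℤ) (hd : 1 ≤ c.length)
    (hθ : θ ^ c.length + ∑ i ∈ Finset.range c.length, ((c.getD i 0 : ℤ) : A) * θ ^ i = 0)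
    (g D P : List ℤ) :
    (homState c g D P).1.length ≤ c.length ∧ (homState c g D P).2.length ≤ c.length ∧
    valL θ c.length (homState c g D P).2 = valL θ c.length D ^ P.length ∧
    valL θ c.length (homState c g D P).1 = valL θ c.length g ^ P.length +
      ∑ k ∈ Finset.range P.length, ((P.getD k 0 : ℤ) : A) * valL θ c.length g ^ k *
        valL θ c.length D ^ (P.length - k) := by
  induction P with
  | nil =>
    have h1 : valL θ c.length [1] = 1 := by
      rw [← fullL_eq_valL θ c.length [1] (by simpa using hd)]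
      simp [fullL]
    refine ⟨by simpa [homState] using hd, by simpa [homState] using hd, ?_, ?_⟩
    · simp [homState, h1]
    · simp [homState, h1]
  | cons t P ih =>
    obtain ⟨l1, l2, v2, v1⟩ := ih
    rw [homState_cons]
    refine ⟨by simp [addL], mulL_length_le _ _ _, ?_, ?_⟩
    · simp only
      rw [valL_mulL θ c hd hθ, fullL_eq_valL θ c.length _ l2, v2, List.length_cons, pow_succ]
    · simp only
      rw [valL_addL, valL_smulL, valL_mulL θ c hd hθ, valL_mulL θ c hd hθ,
        fullL_eq_valL θ c.length _ l2, fullL_eq_valL θ c.length _ l1, v1, v2, List.length_cons,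
        Finset.sum_range_succ', add_mul, Finset.sum_mul]
      simp only [List.getD_cons_succ, List.getD_cons_zero, pow_zero, mul_one, Nat.sub_zero,
        Nat.add_sub_add_right]
      have : ∑ i ∈ Finset.range P.length, ((P.getD i 0 : ℤ) : A) * valL θ c.length g ^ i *
          valL θ c.length D ^ (P.length - i) * valL θ c.length g =
          ∑ k ∈ Finset.range P.length, ((P.getD k 0 : ℤ) : A) * valL θ c.length g ^ (k + 1) *
          valL θ c.length D ^ (P.length - k) := by
        refine Finset.sum_congr rfl fun i _ => ?_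
        ring
      rw [this]
      ring

theorem valL_homL {A : Type*} [CommRing A] (θ : A) (c : List ℤ) (hd : 1 ≤ c.length)
    (hθ : θ ^ c.length + ∑ i ∈ Finset.range c.length, ((c.getD i 0 : ℤ) : A) * θ ^ i = 0)
    (g D P : List ℤ) (_hg : g.length = c.length) (_hD : D.length = c.length)
    (hP : P.length = c.length) :
    valL θ c.length (homL c g D P) = valL θ c.length g ^ c.length +
      ∑ k ∈ Finset.range c.length, ((P.getD k 0 : ℤ) : A) * valL θ c.length g ^ k *
        valL θ c.length D ^ (c.length - k) := by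
  have := (homState_spec θ c hd hθ g D P).2.2.2
  rw [hP] at this
  exact this

theorem valL_derivL {A : Type*} [CommRing A] (θ : A) (c : List ℤ) :
    valL θ c.length (derivL c) = aeval θ (derivative (polyOf c)) := by
  unfold derivL polyOf
  rw [valL_map_range]
  rcases Nat.eq_zero_or_pos c.length with h0 | hpos
  · rw [h0]
    simp
  obtain ⟨m, hm⟩ : ∃ m, c.length = m + 1 := ⟨c.length - 1, by omega⟩
  rw [hm, Finset.sum_range_succ, derivative_add, derivative_X_pow, derivative_sum, map_add,
    map_sum, Finset.sum_range_succ' (fun i => aeval θ (derivative (C (c.getD i 0) * X ^ i)))]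
  have h1 : ∀ i ∈ Finset.range m, ((((i : ℤ) + 1) * (if i + 1 = m + 1 then 1 else
      c.getD (i + 1) 0) : ℤ) : A) * θ ^ i =
      aeval θ (derivative (C (c.getD (i + 1) 0) * X ^ (i + 1))) := by
    intro i hi
    rw [Finset.mem_range] at hi
    rw [if_neg (by omega)]
    simp [derivative_mul]
    ring
  rw [Finset.sum_congr rfl h1]
  simp
  ring

theorem homL_length (c g D P : List ℤ) (_hc : 1 ≤ c.length) (hP : P ≠ []) :
    (homL c g D P).length = c.length := by
  cases P with
  | nil => exact absurd rfl hP
  | cons t P =>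
    change (homState c g D (t :: P)).1.length = c.length
    rw [homState_cons]
    simp [addL]

theorem boxes_zero (H : ℕ) : boxes 0 H = [[]] := rfl

theorem boxes_succ (k H : ℕ) : boxes (k + 1) H = (boxes k H).flatMap fun l =>
    ((List.range (2 * H + 1)).map fun t : ℕ => ((t : ℤ) - (H : ℤ)) :: l) := by
  have h : boxes (k + 1) H = (boxes k H).flatMap fun l =>
      ((do let a ← List.range (2 * H + 1); pure (a : ℤ) : List ℤ)).map
        (fun t => (t - (H : ℤ)) :: l) := rfl
  rw [h]
  congr 1
  funext l
  have h2 : (do let a ← List.range (2 * H + 1); pure (a : ℤ) : List ℤ) =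
      (List.range (2 * H + 1)).map (fun a : ℕ => (a : ℤ)) := by
    simp only [List.bind_eq_flatMap, List.pure_def]
    exact List.map_eq_flatMap.symm
  rw [h2, List.map_map]
  rfl

theorem mem_boxes (k H : ℕ) (l : List ℤ) :
    l ∈ boxes k H ↔ l.length = k ∧ ∀ a ∈ l, a.natAbs ≤ H := by
  induction k generalizing l with
  | zero =>
    rw [boxes_zero, List.mem_singleton]
    constructor
    · rintro rfl
      simp
    · rintro ⟨h, -⟩
      exact List.length_eq_zero_iff.1 h
  | succ k ih =>
    rw [boxes_succ, List.mem_flatMap]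
    constructor
    · rintro ⟨l', hl', hl⟩
      rw [List.mem_map] at hl
      obtain ⟨t, ht, rfl⟩ := hl
      rw [List.mem_range] at ht
      obtain ⟨h1, h2⟩ := (ih l').1 hl'
      refine ⟨by simp [h1], ?_⟩
      intro a ha
      rw [List.mem_cons] at ha
      rcases ha with rfl | ha
      · omega
      · exact h2 a ha
    · rintro ⟨h1, h2⟩
      cases l with
      | nil => simp at h1
      | cons a l' =>
        refine ⟨l', (ih l').2 ⟨by simpa using h1, fun b hb => h2 b (List.mem_cons_of_mem _ hb)⟩, ?_⟩
        rw [List.mem_map]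
        have ha := h2 a List.mem_cons_self
        refine ⟨(a + H).toNat, ?_, ?_⟩
        · rw [List.mem_range]
          omega
        · congr 1
          omega

end Pool.Agent.Helper13.TU
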